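import Mathlib
import Pool.Agent.W793.SCH.Stm4

/-!
# Elementary properties of the sum over pairings
-/

namespace Pool.Agent.W233.SCH.HAF

open Pool.Agent.W793.SCH

theorem hnil {ι : Type} (A : ι → ι → ℝ) : haf A [] = 1 := by rw [haf]

theorem hcons {ι : Type} (A : ι → ι → ℝ) (a : ι) (l : List ι) :
    haf A (a :: l) = ∑ i : Fin l.length, A a (l.get i) * haf A (l.eraseIdx i) := by rw [haf]

theorem len_erase {ι : Type} (l : List ι) (i : Fin l.length) (k : ℕ) (h : l.length = k + 1) :
    (l.eraseIdx i).length = k := by
  have := List.length_eraseIdx_of_lt i.isLt
  omega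

theorem part1 {ι : Type} (A : ι → ι → ℝ) (B : ℝ) (hB : 1 ≤ B) (hA : ∀ u v, |A u v| ≤ B) :
    ∀ (n : ℕ) (L : List ι), L.length = n → |haf A L| ≤ n.factorial * B ^ n := by
  intro n
  induction n using Nat.strong_induction_on with
  | _ n ih =>
    intro L hL
    cases L with
    | nil =>
      simp only [List.length_nil] at hL
      subst hL
      rw [hnil]; simp
    | cons a l =>
      simp only [List.length_cons] at hL
      rw [hcons]
      rcases Nat.eq_zero_or_pos l.length with h0 | hpos
      · have : l = [] := List.length_eq_zero_iff.mp h0
        subst this
        simp only [List.length_nil, Finset.univ_eq_empty, Finset.sum_empty, abs_zero]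
        positivity
      · obtain ⟨k, hk⟩ : ∃ k, l.length = k + 1 := ⟨l.length - 1, by omega⟩
        have hn : n = k + 2 := by omega
        subst hn
        have hterm : ∀ i : Fin l.length, |A a (l.get i) * haf A (l.eraseIdx i)| ≤
            B * (k.factorial * B ^ k) := by
          intro i
          rw [abs_mul]
          have h1 := ih k (by omega) (l.eraseIdx i) (len_erase l i k hk)
          exact mul_le_mul (hA _ _) h1 (abs_nonneg _) (by linarith)
        calc |∑ i : Fin l.length, A a (l.get i) * haf A (l.eraseIdx i)|
            ≤ ∑ i : Fin l.length, |A a (l.get i) * haf A (l.eraseIdx i)| :=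
              Finset.abs_sum_le_sum_abs _ _
          _ ≤ ∑ _i : Fin l.length, B * (k.factorial * B ^ k) :=
              Finset.sum_le_sum fun i _ => hterm i
          _ = (k + 1).factorial * B ^ (k + 1) := by
              rw [Finset.sum_const, Finset.card_univ, Fintype.card_fin, hk, nsmul_eq_mul,
                Nat.factorial_succ]
              push_cast
              ring
          _ ≤ (k + 2).factorial * B ^ (k + 2) := by
              apply mul_le_mul
              · exact_mod_cast Nat.factorial_le (by omega)
              · exact pow_le_pow_right₀ hB (by omega)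
              · positivity
              · positivity

theorem part2 {ι : Type} (A A' : ι → ι → ℝ) (B η : ℝ) (hB : 1 ≤ B) (hη : 0 ≤ η)
    (hA : ∀ u v, |A u v| ≤ B) (hA' : ∀ u v, |A' u v| ≤ B) (hd : ∀ u v, |A u v - A' u v| ≤ η) :
    ∀ (n : ℕ) (L : List ι), L.length = n →
      |haf A L - haf A' L| ≤ n * n.factorial * B ^ n * η := by
  intro n
  induction n using Nat.strong_induction_on with
  | _ n ih =>
    intro L hL
    cases L with
    | nil =>
      simp only [List.length_nil] at hL
      subst hL
      rw [hnil, hnil]; simp
    | cons a l =>
      simp only [List.length_cons] at hL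
      rw [hcons, hcons]
      rcases Nat.eq_zero_or_pos l.length with h0 | hpos
      · have : l = [] := List.length_eq_zero_iff.mp h0
        subst this
        simp only [List.length_nil, Finset.univ_eq_empty, Finset.sum_empty, sub_self, abs_zero]
        positivity
      · obtain ⟨k, hk⟩ : ∃ k, l.length = k + 1 := ⟨l.length - 1, by omega⟩
        have hn : n = k + 2 := by omega
        subst hn
        have hterm : ∀ i : Fin l.length, |A a (l.get i) * haf A (l.eraseIdx i) -
            A' a (l.get i) * haf A' (l.eraseIdx i)| ≤
            η * (k.factorial * B ^ k) + B * (k * k.factorial * B ^ k * η) := by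
          intro i
          have hlen := len_erase l i k hk
          have h1 := part1 A B hB hA k (l.eraseIdx i) hlen
          have h2 := ih k (by omega) (l.eraseIdx i) hlen
          have h3 : A a (l.get i) * haf A (l.eraseIdx i) - A' a (l.get i) * haf A' (l.eraseIdx i) =
            (A a (l.get i) - A' a (l.get i)) * haf A (l.eraseIdx i) +
              A' a (l.get i) * (haf A (l.eraseIdx i) - haf A' (l.eraseIdx i)) := by ring
          rw [h3]
          refine (abs_add_le _ _).trans ?_
          rw [abs_mul, abs_mul]
          exact add_le_add (mul_le_mul (hd _ _) h1 (abs_nonneg _) hη)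
            (mul_le_mul (hA' _ _) h2 (abs_nonneg _) (by linarith))
        rw [← Finset.sum_sub_distrib]
        calc |∑ i : Fin l.length, (A a (l.get i) * haf A (l.eraseIdx i) -
              A' a (l.get i) * haf A' (l.eraseIdx i))|
            ≤ ∑ i : Fin l.length, |A a (l.get i) * haf A (l.eraseIdx i) -
              A' a (l.get i) * haf A' (l.eraseIdx i)| :=
              Finset.abs_sum_le_sum_abs _ _
          _ ≤ ∑ _i : Fin l.length,
              (η * (k.factorial * B ^ k) + B * (k * k.factorial * B ^ k * η)) :=
              Finset.sum_le_sum fun i _ => hterm i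
          _ = ((k + 1).factorial * η) * (B ^ k * (1 + k * B)) := by
              rw [Finset.sum_const, Finset.card_univ, Fintype.card_fin, hk, nsmul_eq_mul,
                Nat.factorial_succ]
              push_cast
              ring
          _ ≤ ((k + 2).factorial * η) * (B ^ k * ((k + 2) * B ^ 2)) := by
              apply mul_le_mul
              · apply mul_le_mul_of_nonneg_right _ hη
                exact_mod_cast Nat.factorial_le (by omega)
              · apply mul_le_mul_of_nonneg_left _ (by positivity)
                have hk0 : (0 : ℝ) ≤ k := Nat.cast_nonneg k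
                nlinarith [mul_nonneg hk0 (by nlinarith : (0 : ℝ) ≤ B ^ 2 - B)]
              · positivity
              · positivity
          _ = ((k + 2 : ℕ) : ℝ) * (k + 2).factorial * B ^ (k + 2) * η := by
              push_cast
              ring

theorem part3 {ι : Type} (A : ι → ι → ℝ) (c : ℝ) : ∀ (m : ℕ) (L : List ι), L.length = 2 * m →
    haf (fun u v => c * A u v) L = c ^ m * haf A L := by
  intro m
  induction m with
  | zero =>
    intro L hL
    have : L = [] := List.length_eq_zero_iff.mp (by omega)
    subst this
    rw [hnil, hnil]; simp
  | succ m ih =>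
    intro L hL
    cases L with
    | nil => simp at hL
    | cons a l =>
      simp only [List.length_cons] at hL
      rw [hcons, hcons, Finset.mul_sum]
      refine Finset.sum_congr rfl fun i _ => ?_
      rw [ih (l.eraseIdx i) (len_erase l i (2 * m) (by omega))]
      ring

theorem part4 (k : ℕ) : (legs k).length = 2 * k := by
  unfold legs
  simp [List.length_flatMap, mul_comm]

theorem t_HAF : S_HAF := by
  refine ⟨fun ι A B L hB hA => part1 A B hB hA _ L rfl,
    fun ι A A' B η L hB hη hA hA' hd => part2 A A' B η hB hη hA hA' hd _ L rfl,
    fun ι A c m L hL => part3 A c m L hL, part4, ?_, ?_, ?_⟩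
  · intro k A A' B η hB hη hA hA' hd
    have h := part2 (fun u v : Fin k × Bool => if u.1 = v.1 then 0 else A u v)
      (fun u v : Fin k × Bool => if u.1 = v.1 then 0 else A' u v) B η hB hη
      (by
        intro u v
        by_cases huv : u.1 = v.1
        · simp only [huv, if_true, abs_zero]; linarith
        · simp only [huv, if_false]; exact hA u v huv)
      (by
        intro u v
        by_cases huv : u.1 = v.1
        · simp only [huv, if_true, abs_zero]; linarith
        · simp only [huv, if_false]; exact hA' u v huv)
      (by
        intro u v
        by_cases huv : u.1 = v.1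
        · simp only [huv, if_true, sub_self, abs_zero]; exact hη
        · simp only [huv, if_false]; exact hd u v huv) (2 * k) (legs k) (part4 k)
    unfold wick
    push_cast at h ⊢
    exact h
  · intro k A c
    unfold wick
    rw [← part3 _ c k (legs k) (part4 k)]
    congr 1
    funext u v
    by_cases huv : u.1 = v.1
    · simp [huv]
    · simp [huv]
  · intro k A A' h
    unfold wick
    congr 1
    funext u v
    by_cases huv : u.1 = v.1
    · simp [huv]
    · simp only [huv, if_false]; exact h u v huv

end Pool.Agent.W233.SCH.HAF
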